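import Pool.Agent.Y734.I.StmsB

/-!
# Impossible proportionalities, five lines (job ALGA)
-/

set_option autoImplicit false

namespace Pool.Agent.Y734.I.ALGA

open MvPolynomial Pool.Agent.Y734.I

/-- The linear form with coefficients `l`. -/
noncomputable def Lf (l : Fin 3 → ℚ) : MvPolynomial (Fin 3) ℚ := ∑ j, C (l j) * X j

theorem Lf_hom (l : Fin 3 → ℚ) : (Lf l).IsHomogeneous 1 := by
  refine IsHomogeneous.sum _ _ _ fun j _ => ?_
  have := (isHomogeneous_C (Fin 3) (l j)).mul (isHomogeneous_X ℚ j)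
  simpa using this

theorem eval_Lf (l z : Fin 3 → ℚ) : eval z (Lf l) = ∑ j, l j * z j := by
  simp [Lf]

theorem aeval_Lf {Ω : Type} [Field Ω] [Algebra ℚ Ω] (l : Fin 3 → ℚ) (P : Fin 3 → Ω) :
    aeval P (Lf l) = ev (N := 2) l P := by
  simp [Lf, ev]

theorem Lf_ne {l : Fin 3 → ℚ} (h : l ≠ 0) : Lf l ≠ 0 := by
  intro h0
  apply h
  ext j
  have := congrArg (eval (Pi.single j (1 : ℚ))) h0
  rw [eval_Lf, map_zero] at this
  simpa [Pi.single_apply] using this

theorem ev_ne {Ω : Type} [Field Ω] [Algebra ℚ Ω] {l : Fin 3 → ℚ} (h : l ≠ 0) {P : Fin 3 → Ω}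
    (hP : Gnr P) : ev (N := 2) l P ≠ 0 := by
  rw [← aeval_Lf]
  exact hP _ 1 (Lf_hom l) (Lf_ne h)

/-- Three independent vectors: a relation has zero coefficients. -/
theorem indep {u v w : Fin 3 → ℚ} (h : LinearIndependent ℚ ![u, v, w]) {a b c : ℚ}
    (he : ∀ j, a * u j + b * v j + c * w j = 0) : a = 0 ∧ b = 0 ∧ c = 0 := by
  have := Fintype.linearIndependent_iff.1 h ![a, b, c] (by
    rw [Fin.sum_univ_three]
    ext j
    simpa using he j)
  exact ⟨this 0, this 1, this 2⟩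

/-- Coordinates with respect to three independent vectors; they are nonzero for a vector in
general position. -/
theorem coords {u v w t : Fin 3 → ℚ} (h : LinearIndependent ℚ ![u, v, w])
    (h0 : LinearIndependent ℚ ![v, w, t]) (h1 : LinearIndependent ℚ ![u, w, t])
    (h2 : LinearIndependent ℚ ![u, v, t]) :
    ∃ p : Fin 3 → ℚ, (∀ j, t j = p 0 * u j + p 1 * v j + p 2 * w j) ∧
      p 0 ≠ 0 ∧ p 1 ≠ 0 ∧ p 2 ≠ 0 := by
  set M : Matrix (Fin 3) (Fin 3) ℚ := Matrix.of ![u, v, w] with hM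
  have hu : IsUnit M := Matrix.linearIndependent_rows_iff_isUnit.1 h
  have hdet : IsUnit M.det := (Matrix.isUnit_iff_isUnit_det M).1 hu
  set p : Fin 3 → ℚ := Matrix.vecMul t M⁻¹ with hp
  have hpt : Matrix.vecMul p M = t := by
    rw [hp, Matrix.vecMul_vecMul, Matrix.nonsing_inv_mul M hdet, Matrix.vecMul_one]
  have hc : ∀ j, t j = p 0 * u j + p 1 * v j + p 2 * w j := by
    intro j
    have := congrFun hpt j
    rw [Matrix.vecMul, dotProduct, Fin.sum_univ_three] at this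
    rw [← this]
    rfl
  refine ⟨p, hc, ?_, ?_, ?_⟩
  · intro h3
    have := (indep h0 (a := p 1) (b := p 2) (c := -1) fun j => by rw [hc j, h3]; ring).2.2
    norm_num at this
  · intro h3
    have := (indep h1 (a := p 0) (b := p 2) (c := -1) fun j => by rw [hc j, h3]; ring).2.2
    norm_num at this
  · intro h3
    have := (indep h2 (a := p 0) (b := p 1) (c := -1) fun j => by rw [hc j, h3]; ring).2.2
    norm_num at this

/-- Every rational vector is the vector of values of three independent forms. -/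
theorem solve {u v w : Fin 3 → ℚ} (h : LinearIndependent ℚ ![u, v, w]) (x y z : ℚ) :
    ∃ t : Fin 3 → ℚ, ∑ j, u j * t j = x ∧ ∑ j, v j * t j = y ∧ ∑ j, w j * t j = z := by
  set M : Matrix (Fin 3) (Fin 3) ℚ := Matrix.of ![u, v, w] with hM
  have hu : IsUnit M := Matrix.linearIndependent_rows_iff_isUnit.1 h
  have hdet : IsUnit M.det := (Matrix.isUnit_iff_isUnit_det M).1 hu
  refine ⟨Matrix.mulVec M⁻¹ ![x, y, z], ?_⟩
  have hM2 : Matrix.mulVec M (Matrix.mulVec M⁻¹ ![x, y, z]) = ![x, y, z] := by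
    rw [Matrix.mulVec_mulVec, Matrix.mul_nonsing_inv M hdet, Matrix.one_mulVec]
  exact ⟨congrFun hM2 0, congrFun hM2 1, congrFun hM2 2⟩

theorem alga : AlgaStmt := by
  intro Ω _ _ H hGP P Q hP hQ a b c ha hb hc
  have i012 := hGP 0 1 2 (by decide) (by decide) (by decide)
  obtain ⟨p, hp, hp0, hp1, hp2⟩ := coords (t := H 3) i012
    (hGP 1 2 3 (by decide) (by decide) (by decide)) (hGP 0 2 3 (by decide) (by decide) (by decide))
    (hGP 0 1 3 (by decide) (by decide) (by decide))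
  obtain ⟨q, hq, hq0, hq1, hq2⟩ := coords (t := H 4) i012
    (hGP 1 2 4 (by decide) (by decide) (by decide)) (hGP 0 2 4 (by decide) (by decide) (by decide))
    (hGP 0 1 4 (by decide) (by decide) (by decide))
  have hne : ∀ i : Fin 3, (![H 0, H 1, H 2] : Fin 3 → Fin 3 → ℚ) i ≠ 0 := fun i => i012.ne_zero i
  have x0 := ev_ne (hne 0) hP
  have x1 := ev_ne (hne 1) hP
  have x2 := ev_ne (hne 2) hP
  have y0 := ev_ne (hne 0) hQ
  have y1 := ev_ne (hne 1) hQ
  have y2 := ev_ne (hne 2) hQ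
  simp only [Matrix.cons_val_zero, Matrix.cons_val_one, Matrix.cons_val] at x0 x1 x2 y0 y1 y2
  have hev : ∀ (t : Fin 3 → ℚ) (r : Fin 3 → ℚ) (R : Fin 3 → Ω),
      (∀ j, t j = r 0 * H 0 j + r 1 * H 1 j + r 2 * H 2 j) →
      ev (N := 2) t R = algebraMap ℚ Ω (r 0) * ev (N := 2) (H 0) R +
        algebraMap ℚ Ω (r 1) * ev (N := 2) (H 1) R + algebraMap ℚ Ω (r 2) * ev (N := 2) (H 2) R := by
    intro t r R h
    simp only [ev, Fin.sum_univ_succ, Fin.sum_univ_zero, h, map_add, map_mul]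
    ring
  -- the polynomial
  set G : MvPolynomial (Fin 3) ℚ :=
    Lf (H 4) * (C (q 0) * (Lf (H 1) * Lf (H 2)) + C (q 1 * a) * (Lf (H 0) * Lf (H 2)) +
      C (q 2 * b) * (Lf (H 0) * Lf (H 1))) -
    C c * (Lf (H 3) * (C (p 0) * (Lf (H 1) * Lf (H 2)) + C (p 1 * a) * (Lf (H 0) * Lf (H 2)) +
      C (p 2 * b) * (Lf (H 0) * Lf (H 1)))) with hG
  have hom2 : ∀ (r : ℚ) (i j : Fin 5), (C r * (Lf (H i) * Lf (H j))).IsHomogeneous 2 := by
    intro r i j
    have := (isHomogeneous_C (Fin 3) r).mul ((Lf_hom (H i)).mul (Lf_hom (H j)))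
    simpa using this
  have hGh : G.IsHomogeneous 3 := by
    rw [hG]
    refine IsHomogeneous.sub ?_ ?_
    · exact (Lf_hom (H 4)).mul (((hom2 _ 1 2).add (hom2 _ 0 2)).add (hom2 _ 0 1))
    · have := (isHomogeneous_C (Fin 3) c).mul
        ((Lf_hom (H 3)).mul (((hom2 (p 0) 1 2).add (hom2 (p 1 * a) 0 2)).add (hom2 (p 2 * b) 0 1)))
      simpa using this
  have hGP0 : aeval P G = 0 := by
    rw [hG]
    simp only [map_sub, map_mul, map_add, aeval_Lf, aeval_C]
    rw [hev (H 4) q P hq, hev (H 3) p P hp]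
    unfold pr at ha hb hc
    rw [hev (H 4) q P hq, hev (H 3) p P hp, hev (H 4) q Q hq, hev (H 3) p Q hp] at hc
    set A := algebraMap ℚ Ω a
    set B := algebraMap ℚ Ω b
    set Cc := algebraMap ℚ Ω c
    set X0 := ev (N := 2) (H 0) P
    set X1 := ev (N := 2) (H 1) P
    set X2 := ev (N := 2) (H 2) P
    set Y0 := ev (N := 2) (H 0) Q
    set Y1 := ev (N := 2) (H 1) Q
    set Y2 := ev (N := 2) (H 2) Q
    set q0 := algebraMap ℚ Ω (q 0)
    set q1 := algebraMap ℚ Ω (q 1)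
    set q2 := algebraMap ℚ Ω (q 2)
    set p0 := algebraMap ℚ Ω (p 0)
    set p1 := algebraMap ℚ Ω (p 1)
    set p2 := algebraMap ℚ Ω (p 2)
    have key : X0 * Y0 * ((q0 * X0 + q1 * X1 + q2 * X2) *
        (q0 * (X1 * X2) + q1 * A * (X0 * X2) + q2 * B * (X0 * X1)) -
        Cc * ((p0 * X0 + p1 * X1 + p2 * X2) *
        (p0 * (X1 * X2) + p1 * A * (X0 * X2) + p2 * B * (X0 * X1)))) = 0 := by
      linear_combination X0 * X1 * X2 * hc -
        X0 * X2 * ((q0 * X0 + q1 * X1 + q2 * X2) * q1 - Cc * (p0 * X0 + p1 * X1 + p2 * X2) * p1) * ha -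
        X0 * X1 * ((q0 * X0 + q1 * X1 + q2 * X2) * q2 - Cc * (p0 * X0 + p1 * X1 + p2 * X2) * p2) * hb
    exact (mul_eq_zero.1 key).resolve_left (mul_ne_zero x0 y0)
  have hG0 : G = 0 := by
    by_contra h
    exact hP G 3 hGh h hGP0
  have ha0 : a ≠ 0 := by
    rintro rfl
    unfold pr at ha
    rw [map_zero, zero_mul] at ha
    exact (mul_ne_zero x1 y1) ha
  have hrat : ∀ x y z : ℚ, (q 0 * x + q 1 * y + q 2 * z) *
      (q 0 * (y * z) + q 1 * a * (x * z) + q 2 * b * (x * y)) -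
      c * ((p 0 * x + p 1 * y + p 2 * z) *
      (p 0 * (y * z) + p 1 * a * (x * z) + p 2 * b * (x * y))) = 0 := by
    intro x y z
    obtain ⟨t, h0, h1, h2⟩ := solve i012 x y z
    have h4 : ∑ j, H 4 j * t j = q 0 * x + q 1 * y + q 2 * z := by
      rw [← h0, ← h1, ← h2]
      simp only [Fin.sum_univ_three, hq]
      ring
    have h3 : ∑ j, H 3 j * t j = p 0 * x + p 1 * y + p 2 * z := by
      rw [← h0, ← h1, ← h2]
      simp only [Fin.sum_univ_three, hp]
      ring
    have := congrArg (eval t) hG0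
    rw [hG] at this
    simp only [map_sub, map_mul, map_add, eval_Lf, eval_C, h0, h1, h2, h3, h4, map_zero] at this
    exact this
  have e1 := hrat 0 1 1
  have e2 := hrat 0 1 (-1)
  have e3 := hrat 1 0 1
  have e4 := hrat 1 0 (-1)
  have f01 : q 0 * q 1 = c * (p 0 * p 1) := by linarith
  have f02 : q 0 * q 2 = c * (p 0 * p 2) := by linarith
  have f12 : q 1 * q 2 = c * (p 1 * p 2) := by
    have h : a * (q 1 * q 2 - c * (p 1 * p 2)) = 0 := by linarith
    have := (mul_eq_zero.1 h).resolve_left ha0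
    linarith
  -- the vectors are proportional
  have g01 : q 0 * p 1 = q 1 * p 0 := by
    have h : q 2 * (q 0 * p 1 - q 1 * p 0) = 0 := by
      linear_combination p 1 * f02 - p 0 * f12
    have := (mul_eq_zero.1 h).resolve_left hq2
    linarith
  have g02 : q 0 * p 2 = q 2 * p 0 := by
    have h : q 1 * (q 0 * p 2 - q 2 * p 0) = 0 := by
      linear_combination p 2 * f01 - p 0 * f12
    have := (mul_eq_zero.1 h).resolve_left hq1
    linarith
  have := (indep (hGP 3 4 0 (by decide) (by decide) (by decide)) (a := q 0) (b := - p 0) (c := 0)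
    fun j => by
      rw [hp j, hq j]
      linear_combination (H 1 j) * g01 + (H 2 j) * g02).1
  exact hq0 this

end Pool.Agent.Y734.I.ALGA
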